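import Pool.Agent.Work.MP_6d7bb4_h65.GrowthParts

/-!
# Discrete locally semiprimitive groups acting on trees: bound for the centres, and a criterion

Notation as in `CentreGrowth.lean`. `F` is a semiprimitive group on a finite set `Ω`, `T` the `|Ω|`-regular tree
and `H` a discrete subgroup of `Aut(T)` which acts locally like `F` and contains an inversion; `N_s = N_s(x)` is the
largest normal `p`-subgroup of `H_x` which fixes the ball `B(x, s)` pointwise, `Z_s = Ω_1(Z(N_s))`.

1. Bound. For every semiprimitive `F`, all `H`, `x`, `p` and `s ≥ 1` the order of `Z_s` is at most a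
   constant depending on `|Ω|` and `s` only.
2. Criterion. Q1 holds for `F` if and only if for some `s ≥ 1` always `|Z_s| < p ^ (2s - 1)`; or if and only if the
   derived lengths of the groups `N_s` are bounded for some `s`; or if and only if the orders of their
   elementary abelian subgroups are.

Proof. The criterion follows from the growth of the centres (`CentreGrowth.lean`).
For the bound let `b` be the largest radius such that `Z_s(x)` fixes `B(x, b)`. The groups `Z_s(w)` with
`w` at distance `b` from `x` generate a group which is transitive on the neighbours of `x`; at most `|Ω|`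
of them suffice. They are centralised by a subgroup of bounded index in `Z_s(x)`, and no nontrivial
element of `H_x ∩ H_y` is centralised by both groups of this kind at `x` and at `y`. So
`Z_s(x) ∩ Z_s(y)` has bounded order. Finally `N_s(y)` acts on `Z_s(x)` as a group of bounded order, with
fixed points in `Z_s(x) ∩ Z_s(y)` if `b > s`.
-/

set_option autoImplicit false

namespace Pool.Agent.Results.MP_6d7bb4_al.CentreBound

open Pool.Agent.Work.MP_6d7bb4_h65.Growth

/-- (1) The orders of the groups `Z_s(x)` are bounded by a function of `|Ω|` and `s`. (2) Criteria for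
Q1. -/
theorem result :
    (∀ d s : ℕ, 1 ≤ s → ∃ m : ℕ,
      ∀ (Ω : Type) [Fintype Ω] (F : Subgroup (Equiv.Perm Ω)), Fintype.card Ω = d →
      Semiprimitive F →
      ∀ (V : Type) (Γ : SimpleGraph V), Γ.IsTree → (∀ v : V, Nonempty (Γ.neighborSet v ≃ Ω)) →
        ∀ H : Subgroup (Γ ≃g Γ), DiscreteLocally Γ F H → Inversion Γ H →
          ∀ (x : V) (p : ℕ), p.Prime → ∀ P : Subgroup (Γ ≃g Γ), Core Γ H s p x P →
            ∀ E : Subgroup (Γ ≃g Γ), (∀ z ∈ E, z ∈ P ∧ z ^ p = 1 ∧ ∀ g ∈ P, g * z = z * g) →
              Nat.card E ≤ m) ∧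
    (∀ (Ω : Type) [Fintype Ω] (F : Subgroup (Equiv.Perm Ω)), Semiprimitive F →
      ∀ (V : Type) (Γ : SimpleGraph V), Γ.IsTree → (∀ v : V, Nonempty (Γ.neighborSet v ≃ Ω)) →
        List.TFAE [
          FinitelyManyClasses Γ (fun H => DiscreteLocally Γ F H ∧ InvolutiveInversion Γ H),
          ∃ s : ℕ, 1 ≤ s ∧ ∀ H : Subgroup (Γ ≃g Γ), DiscreteLocally Γ F H →
            InvolutiveInversion Γ H → SmallCentres Γ H 0 s s,
          ∃ l s t : ℕ, 1 ≤ s ∧ s ≤ t ∧ ∀ H : Subgroup (Γ ≃g Γ), DiscreteLocally Γ F H →
            InvolutiveInversion Γ H → SmallCentres Γ H l s t,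
          ∃ s l : ℕ, ∀ H : Subgroup (Γ ≃g Γ), DiscreteLocally Γ F H → InvolutiveInversion Γ H →
            ∀ (x : V) (p : ℕ), p.Prime → ∀ P : Subgroup (Γ ≃g Γ), NormalP Γ H s p x P →
              derivedSeries P l = ⊥,
          ∃ s r : ℕ, ∀ H : Subgroup (Γ ≃g Γ), DiscreteLocally Γ F H → InvolutiveInversion Γ H →
            ∀ (x : V) (p : ℕ), p.Prime → ∀ P : Subgroup (Γ ≃g Γ), NormalP Γ H s p x P →
              ∀ E : Subgroup P, ElemAb p E → Nat.card E ≤ p ^ r]) :=
  ⟨part2, part3⟩

end Pool.Agent.Results.MP_6d7bb4_al.CentreBound
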