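import Pool.Agent.Work.MP_6d7bb4_h65.GrowthParts

/-!
# Discrete locally semiprimitive groups acting on trees: growth of centres

`F` is a semiprimitive group on a finite set `Ω`, `T` the `|Ω|`-regular tree and `H` a discrete
subgroup of `Aut(T)` which acts locally like `F` and contains an inversion (equivalently: is transitive
on the vertices). For a prime `p`, a vertex `x` and `k ≥ 1` let `N_k = N_k(x)` be the largest normal
`p`-subgroup of `H_x` which fixes the ball `B(x, k)` pointwise, and `Z_k = Ω_1(Z(N_k))` the group of
the elements of order `1` or `p` of its centre.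

1. Growth. Let `l ≥ 0`, `1 ≤ s ≤ t`. If for all `x` and `p` the elements of order `1` or `p` of the
   derived subgroup `N_t^(l)` which centralise `N_s^(l)` form a group of order less than `p ^ (2s - 1)`,
   then `H_x` acts faithfully on `B(x, R)`, where `R` depends on `l`, `s`, `t` only, neither on `H` nor
   on `F` (`R = s + t + 1` if `l = 0`). Hence for every `F` the `H` with this property and an involutive
   inversion fall into finitely many conjugacy classes. For `l = 0`, `s = t` the hypothesis is
   `|Z_s| < p ^ (2s - 1)`, the conclusion that `H_x` acts faithfully on `B(x, 2s + 1)`.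
2. Linear groups. The conclusions of 1 hold for the `H` such that the pointwise stabilisers of the balls
   `B(x, s)` in `H` are isomorphic to groups of matrices of degree `n` over fields (of any
   characteristic, depending on `H` and `x`); `R` depends on `s` and `n` only.

Proof. Put `M_k(x) = N_k(x)^(l)` and let `A_x(s, t)` be the group of the elements of order `1` or `p` of
`M_t(x)` which centralise `M_s(x)`. For adjacent `x`, `y` the group `A_x(s + 1, t)` contains
`A_x(s, t + 1)` and `A_y(s, t + 1)`. If `M_{t+1}(x) ≠ 1` then these two are nontrivial and distinct, and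
`A_x(s + 1, t) ≠ A_y(s + 1, t)`, because a nontrivial subgroup of `H_x` is not normalised by both `H_x`
and an inversion. So `|A_x(s + 1, t)| ≥ p ^ 2 |A_x(s, t + 1)|`; it follows that `|A_x(s, t)|` is at least
`p ^ (2s - 1)` if `M_{t+s-1}(x) ≠ 1`. If `M_k = 1` for some `k` then an induction on `l` shows that
`N_{k'} = 1` with `k'` depending on `k` and `l` only: subgroups generated by the `N_s(v)^(l)` for the `v`
at a certain distance from `w` are transitive on the neighbours of `w`, by semiprimitivity, and the set of
the fixed points of the intersection of some groups `N_s(v)^(l)` is invariant under them.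
-/

set_option autoImplicit false

namespace Pool.Agent.Results.MP_6d7bb4_al.CentreGrowth

open Pool.Agent.Work.MP_6d7bb4_h65.Growth

/-- (1) Growth: a radius depending on `l`, `s`, `t` only, on which the groups `H` satisfying
`SmallCentres Γ H l s t` act faithfully, and finiteness of the number of classes. (2) Linear pointwise
stabilisers of balls. -/
theorem result :
    (∀ l s t : ℕ, 1 ≤ s → s ≤ t → ∃ R : ℕ, (l = 0 → R = s + t + 1) ∧
      ∀ (Ω : Type) [Fintype Ω] (F : Subgroup (Equiv.Perm Ω)), Semiprimitive F →
      ∀ (V : Type) (Γ : SimpleGraph V), Γ.IsTree → (∀ v : V, Nonempty (Γ.neighborSet v ≃ Ω)) →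
        (∀ H : Subgroup (Γ ≃g Γ), DiscreteLocally Γ F H → Inversion Γ H → SmallCentres Γ H l s t →
          Faithful Γ H R) ∧
        FinitelyManyClasses Γ (fun H => DiscreteLocally Γ F H ∧ InvolutiveInversion Γ H ∧
          SmallCentres Γ H l s t)) ∧
    (∀ s n : ℕ, ∃ R : ℕ,
      ∀ (Ω : Type) [Fintype Ω] (F : Subgroup (Equiv.Perm Ω)), Semiprimitive F →
      ∀ (V : Type) (Γ : SimpleGraph V), Γ.IsTree → (∀ v : V, Nonempty (Γ.neighborSet v ≃ Ω)) →
        (∀ H : Subgroup (Γ ≃g Γ), DiscreteLocally Γ F H → Inversion Γ H → Linear Γ H s n →
          Faithful Γ H R) ∧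
        FinitelyManyClasses Γ (fun H => DiscreteLocally Γ F H ∧ InvolutiveInversion Γ H ∧
          Linear Γ H s n)) :=
  ⟨part1, part4⟩

end Pool.Agent.Results.MP_6d7bb4_al.CentreGrowth
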