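import Mathlib
import Pool.Agent.Work.MP_6d7bb4_psv.Main

/-!
# Q1 is equivalent to the conjecture of Potocnik, Spiga and Verret

For a group `F` of permutations of a finite set `Ω` let `Q1 F` be the assertion of the posed question
for `F`: the discrete subgroups of the automorphism group of the `|Ω|`-regular tree which act locally
like `F` and contain an involutive inversion fall into finitely many conjugacy classes. Let `PSV F` be
the assertion of the conjecture of Potocnik, Spiga and Verret for `F`: the discrete vertex-transitive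
subgroups which act locally like `F` fall into finitely many conjugacy classes (nothing is assumed on
inversions).

(1) `Q1 (F wr S_2)`, for the product action on `Ω × Ω`, implies `PSV F`, for every transitive `F`.
(2) If `F` is semiprimitive (primitive) and not semiregular then `F wr S_2` is semiprimitive (primitive).
(3) `Q1 F` holds for all semiprimitive `F` if and only if `PSV F` holds for all semiprimitive `F`; and
    the same for primitive groups (where `PSV` is the conjecture of Weiss in its tree form).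

So the hypothesis of an involutive inversion in the posed question is no restriction.

Proof of (1). Let `G` be a discrete, vertex-transitive group which acts locally like `F` on the tree
with vertex set `V`. For neighbours `i, j` of `o` there is `g ∈ G` with `g o = i`, `g j = o`. The
permutation `(v, w) ↦ (g w, g⁻¹ v)` of `V × V` is an involution in `G wr S_2`, and it maps `(o, o)` to
`(i, j)`. So `G wr S_2` acts on a component of the tensor square of the tree, with vertex stabiliser
`G_o wr S_2`, locally like `F wr S_2`, and its lift to the universal cover, the `|Ω|^2`-regular tree,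
contains involutive inversions. `Q1 (F wr S_2)` bounds the order of `G_o`. Given the order of `G_o`
there are finitely many groups up to conjugacy (simultaneous reduction of words in `G_o` and an
inversion).
-/

set_option autoImplicit false

namespace Pool.Agent.Results.MP_6d7bb4_al.PSVEquivalence

/-- `Γ` is the `|Ω|`-regular tree. -/
def RegTree (Ω : Type) {V : Type} (Γ : SimpleGraph V) : Prop :=
  Γ.IsTree ∧ ∀ v : V, Nonempty (Γ.neighborSet v ≃ Ω)

/-- `H` is discrete: all vertex stabilisers are finite. -/
def FinStab {V : Type} {Γ : SimpleGraph V} (H : Subgroup (Γ ≃g Γ)) : Prop :=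
  ∀ v : V, {g : Γ ≃g Γ | g ∈ H ∧ g v = v}.Finite

/-- `H` acts locally like `F` at every vertex. -/
def LocAct {Ω V : Type} {Γ : SimpleGraph V} (H : Subgroup (Γ ≃g Γ))
    (F : Subgroup (Equiv.Perm Ω)) : Prop :=
  ∀ x : V, ∃ e : Γ.neighborSet x ≃ Ω, ∀ σ : Equiv.Perm Ω,
    σ ∈ F ↔ ∃ g ∈ H, g x = x ∧
      ∀ y : Γ.neighborSet x, g (y : V) = ((e.symm (σ (e y)) : Γ.neighborSet x) : V)

/-- `H` contains an involutive inversion. -/
def InvInv {V : Type} {Γ : SimpleGraph V} (H : Subgroup (Γ ≃g Γ)) : Prop :=
  ∃ g ∈ H, ∃ x y : V, Γ.Adj x y ∧ g x = y ∧ g y = x ∧ g * g = 1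

/-- `H` is vertex-transitive. -/
def VTrans {V : Type} {Γ : SimpleGraph V} (H : Subgroup (Γ ≃g Γ)) : Prop :=
  ∀ x y : V, ∃ g ∈ H, g x = y

/-- The subgroups with property `P` fall into finitely many conjugacy classes. -/
def FinCls {V : Type} {Γ : SimpleGraph V} (P : Subgroup (Γ ≃g Γ) → Prop) : Prop :=
  ∃ S : Finset (Subgroup (Γ ≃g Γ)), ∀ H : Subgroup (Γ ≃g Γ), P H →
    ∃ K ∈ S, ∃ a : Γ ≃g Γ, H = K.map (MulAut.conj a).toMonoidHom

/-- The posed question for the group `F`: the discrete groups acting locally like `F` which contain an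
involutive inversion fall into finitely many conjugacy classes. -/
def Q1 {Ω : Type} (F : Subgroup (Equiv.Perm Ω)) : Prop :=
  ∀ (V : Type) (Γ : SimpleGraph V), RegTree Ω Γ →
    FinCls (fun H : Subgroup (Γ ≃g Γ) => FinStab H ∧ LocAct H F ∧ InvInv H)

/-- The conjecture of Potocnik, Spiga and Verret for the group `F`: the discrete vertex-transitive
groups acting locally like `F` fall into finitely many conjugacy classes. -/
def PSV {Ω : Type} (F : Subgroup (Equiv.Perm Ω)) : Prop :=
  ∀ (V : Type) (Γ : SimpleGraph V), RegTree Ω Γ →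
    FinCls (fun H : Subgroup (Γ ≃g Γ) => FinStab H ∧ LocAct H F ∧ VTrans H)

/-- transitive -/
def Transitive {Ω : Type} (F : Subgroup (Equiv.Perm Ω)) : Prop := ∀ a b : Ω, ∃ σ ∈ F, σ a = b

/-- semiregular: only the identity has fixed points -/
def Semiregular {Ω : Type} (F : Subgroup (Equiv.Perm Ω)) : Prop :=
  ∀ σ ∈ F, ∀ a : Ω, σ a = a → σ = 1

/-- semiprimitive: transitive, and every normal subgroup is transitive or semiregular -/
def Semiprim {Ω : Type} (F : Subgroup (Equiv.Perm Ω)) : Prop :=
  Transitive F ∧ ∀ N : Subgroup (Equiv.Perm Ω), N ≤ F →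
    (∀ f ∈ F, ∀ n ∈ N, f * n * f⁻¹ ∈ N) → Transitive N ∨ Semiregular N

/-- primitive: transitive, and only the two trivial equivalence relations are invariant -/
def Prim {Ω : Type} (F : Subgroup (Equiv.Perm Ω)) : Prop :=
  Transitive F ∧ ∀ r : Setoid Ω, (∀ f ∈ F, ∀ a b : Ω, r a b → r (f a) (f b)) →
    (∀ a b : Ω, r a b → a = b) ∨ ∀ a b : Ω, r a b

/-- The wreath product of `F` with the group of order two, in its product action on `Ω × Ω`: all maps
`(x, y) ↦ (a x, b y)` and `(x, y) ↦ (a y, b x)` with `a, b ∈ F`. -/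
def prodAct {Ω : Type} (F : Subgroup (Equiv.Perm Ω)) : Subgroup (Equiv.Perm (Ω × Ω)) :=
  Subgroup.copy (Pool.Agent.Work.MP_6d7bb4_psv.prodAct F)
    {σ | ∃ a ∈ F, ∃ b ∈ F,
      (∀ x y : Ω, σ (x, y) = (a x, b y)) ∨ (∀ x y : Ω, σ (x, y) = (a y, b x))} rfl

/-- Q1 for `F wr S_2` in product action implies the conjecture of Potocnik, Spiga and Verret for `F`;
`F wr S_2` is semiprimitive (primitive) if `F` is semiprimitive (primitive) and not semiregular. Hence the posed question is
equivalent to the conjecture of Potocnik, Spiga and Verret, and for primitive groups to the conjecture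
of Weiss (in its tree form). -/
theorem result :
    (∀ (Ω : Type) [Fintype Ω] (F : Subgroup (Equiv.Perm Ω)),
      Transitive F → Q1 (prodAct F) → PSV F) ∧
    (∀ (Ω : Type) [Fintype Ω] (F : Subgroup (Equiv.Perm Ω)), Semiprim F → ¬ Semiregular F →
      Semiprim (prodAct F)) ∧
    (∀ (Ω : Type) [Fintype Ω] (F : Subgroup (Equiv.Perm Ω)), Prim F → ¬ Semiregular F →
      Prim (prodAct F)) ∧
    ((∀ (Ω : Type) [Fintype Ω] (F : Subgroup (Equiv.Perm Ω)), Semiprim F → Q1 F) ↔
      ∀ (Ω : Type) [Fintype Ω] (F : Subgroup (Equiv.Perm Ω)), Semiprim F → PSV F) ∧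
    ((∀ (Ω : Type) [Fintype Ω] (F : Subgroup (Equiv.Perm Ω)), Prim F → Q1 F) ↔
      ∀ (Ω : Type) [Fintype Ω] (F : Subgroup (Equiv.Perm Ω)), Prim F → PSV F) := by
  have h : ∀ (Ω : Type) (F : Subgroup (Equiv.Perm Ω)),
      prodAct F = Pool.Agent.Work.MP_6d7bb4_psv.prodAct F :=
    fun Ω F => Subgroup.copy_eq _ _ rfl
  have hm := Pool.Agent.Work.MP_6d7bb4_psv.main
  refine ⟨?_, ?_, ?_, hm.2.2.2.1, hm.2.2.2.2⟩
  · intro Ω _ F h1 h2
    rw [h] at h2
    exact hm.1 Ω F h1 h2
  · intro Ω _ F h1 h2
    rw [h]
    exact hm.2.1 Ω F h1 h2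
  · intro Ω _ F h1 h2
    rw [h]
    exact hm.2.2.1 Ω F h1 h2

end Pool.Agent.Results.MP_6d7bb4_al.PSVEquivalence
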