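import Pool.Agent.Work.MP_6d7bb4_G.All4

/-!
# MP_6d7bb4: the Potočnik-Spiga-Verret conjecture under conditions on the normal `p`-subgroups of the
point stabilisers (helper65, helper94)

The theorem covers all soluble semiprimitive groups (condition (B)); all primitive groups of the types HS,
HC, SD, CD, TW, because there the stabiliser of a point induces all inner automorphisms on the simple
subgroups `T`, so that a normal `p`-subgroup of the stabiliser of a point induces the trivial group on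
`T` (condition (C)); and primitive groups of the types AS and PA over a group `H` when, for every `p`, the
largest normal `p`-subgroup of a point stabiliser of `H` is cyclic or generalised quaternion (condition
(C)), or there are no offenders because `T` has no small modules (condition (D)).

## Sketch of the proof

Let `Γ` be the tree, `H` the group, `{x, y}` an edge, `Q_e = O_p(H_xy)`, `Q_x = O_p` of the kernel of the action of
`H_x` on the neighbours of `x`. It is enough to bound the radius of a ball on which an element of prime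
order `p` of a normal subgroup of `H_xy` acts trivially. Conditions (A), (D), (E) imply that there is at most
one offender in `Q_e` on the irreducible modules of `H_x` (`UniqueOffender`); (B) was treated in an earlier
version (files `MP_6d7bb4_S`). In case (C) the module of `H_x` is acted on by commuting perfect groups `K` (one for
every `T`), and an elementary abelian subgroup `A` of `Q_e` satisfies `|A| |C_U(A)| ≤ |U|` for the semisimple
module `U`, with equality only if `A` is generated by transvections, each of which centralises all groups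
`K` except one. The Baumann system `W_x`, `B_e`, `Z_e`, the lattice of its tight subgroups and paths of critical
pairs bound the critical distance, as in the soluble case.
-/

set_option autoImplicit false

namespace Pool.Agent.Results.MP_6d7bb4_al.PSVLocalConditions

/-- `N` is a normal `p`-subgroup of the stabiliser of the point `ω` in `F` -/
def NormalP {Ω : Type} (F : Subgroup (Equiv.Perm Ω)) (p : ℕ) (ω : Ω)
    (N : Subgroup (Equiv.Perm Ω)) : Prop :=
  N ≤ F ∧ (∀ n ∈ N, n ω = ω) ∧ (∀ f ∈ F, f ω = ω → ∀ n ∈ N, f * n * f⁻¹ ∈ N) ∧ IsPGroup p N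

/-- `S` is `p`-soluble: every nontrivial subgroup `L` has a proper normal subgroup whose index is a power
of `p` or prime to `p` -/
def PSoluble {Ω : Type} (p : ℕ) (S : Subgroup (Equiv.Perm Ω)) : Prop :=
  ∀ L : Subgroup (Equiv.Perm Ω), L ≤ S → L ≠ ⊥ →
    ∃ N : Subgroup (Equiv.Perm Ω), N ≤ L ∧ N ≠ L ∧ (∀ l ∈ L, ∀ n ∈ N, l * n * l⁻¹ ∈ N) ∧
      ((∃ k, N.relIndex L = p ^ k) ∨ ¬ p ∣ N.relIndex L)

/-- `A` is an elementary abelian `p`-group -/
def Elementary {Ω : Type} (p : ℕ) (A : Subgroup (Equiv.Perm Ω)) : Prop :=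
  (∀ a ∈ A, ∀ b ∈ A, a * b = b * a) ∧ ∀ a ∈ A, a ^ p = 1

/-- `g` normalises `T` -/
def Normalises {Ω : Type} (T : Subgroup (Equiv.Perm Ω)) (g : Equiv.Perm Ω) : Prop :=
  T.map (MulAut.conj g).toMonoidHom = T

/-- `g` centralises `T` -/
def Centralises {Ω : Type} (T : Subgroup (Equiv.Perm Ω)) (g : Equiv.Perm Ω) : Prop :=
  ∀ t ∈ T, g * t = t * g

/-- `𝒩` is a conjugacy class of quasisimple subgroups of `F`, different members commute, and the members
generate a transitive group -/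
def Components {Ω : Type} (F : Subgroup (Equiv.Perm Ω)) (𝒩 : Set (Subgroup (Equiv.Perm Ω))) :
    Prop :=
  (∀ T ∈ 𝒩, T ≤ F ∧ T ≠ ⊥ ∧ ⁅T, T⁆ = T ∧
    (∀ M : Subgroup (Equiv.Perm Ω), M ≤ T → (∀ t ∈ T, Normalises M t) →
      M = T ∨ ∀ m ∈ M, Centralises T m) ∧
    ∀ T' : Subgroup (Equiv.Perm Ω),
      (T' ∈ 𝒩 ↔ ∃ f ∈ F, T.map (MulAut.conj f).toMonoidHom = T') ∧
      (T' ∈ 𝒩 → T' ≠ T → ∀ t ∈ T', Centralises T t)) ∧
  ∀ a b : Ω, ∃ n ∈ sSup 𝒩, n a = b

/-- the group of units modulo `r` generated by `p` and by all `i` such that `u` and `u ^ i` are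
conjugate in `G` -/
def unitGroup {Ω : Type} (G : Subgroup (Equiv.Perm Ω)) (p r : ℕ) (u : Equiv.Perm Ω) :
    Subgroup (ZMod r)ˣ :=
  Subgroup.closure ({i : (ZMod r)ˣ | (i : ZMod r) = (p : ZMod r)} ∪
    {i : (ZMod r)ˣ | ∃ g ∈ G, g * u * g⁻¹ = u ^ (i : ZMod r).val})

/-- `d ↦ (d + 1) ^ ((d + 1) (4 d + 2)) + 2` -/
def radius (d : ℕ) : ℕ := (d + 1) ^ ((d + 1) * (4 * d + 2)) + 2

/-- For semiprimitive `F` on a finite set `Ω` satisfying one of the conditions (A) to (E) at every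
prime, and the `|Ω|`-regular tree, the automorphism subgroups that are discrete, act locally like `F` at
every vertex and contain an order-2 edge inversion or are vertex-transitive fall into finitely many
conjugacy classes, and their vertex stabilisers have order at most ` ((d + 1) ^ radius d)!`, `d = |Ω|`. -/
theorem result :
  ∀ (Ω : Type) [Fintype Ω] (F : Subgroup (Equiv.Perm Ω)),
    ((∀ a b : Ω, ∃ σ ∈ F, σ a = b) ∧
      ∀ N : Subgroup (Equiv.Perm Ω), N ≤ F →
        (∀ f ∈ F, ∀ n ∈ N, f * n * f⁻¹ ∈ N) →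
        ((∀ a b : Ω, ∃ σ ∈ N, σ a = b) ∨ (∀ σ ∈ N, ∀ a : Ω, σ a = a → σ = 1))) →
    (∀ p : ℕ, p.Prime →
      -- (A) `N` has at most one subgroup of order `p`
      (∀ ω N, NormalP F p ω N → ∀ g ∈ N, ∀ h ∈ N, g ^ p = 1 → h ^ p = 1 → g ≠ 1 →
        ∃ i : ℕ, h = g ^ i) ∨
      -- (B) all `N` lie in a `p`-soluble group
      (∃ S, PSoluble p S ∧ ∀ ω N, NormalP F p ω N → N ≤ S) ∨
      -- (C) the group induced by `N` on `T` has at most one subgroup of order `p`
      (∃ 𝒩, Components F 𝒩 ∧ ∀ ω N, NormalP F p ω N → ∀ T ∈ 𝒩, ∀ g ∈ N, ∀ h ∈ N,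
        Normalises T g → Normalises T h → Centralises T (g ^ p) → Centralises T (h ^ p) →
        ¬ Centralises T g → ∃ i : ℕ, Centralises T (h * g ^ i)) ∨
      -- (D) `T` has no small modules
      (∃ 𝒩, Components F 𝒩 ∧ ∀ T ∈ 𝒩, ∃ (c r : ℕ) (u : Equiv.Perm Ω),
        r.Prime ∧ r ≠ p ∧ u ∈ T ∧ u ^ r = 1 ∧ ¬ Centralises T u ∧
        (∀ ω N A, NormalP F p ω N → A ≤ N → Elementary p A → (∀ a ∈ A, Normalises T a) →
          (Subgroup.centralizer (T : Set (Equiv.Perm Ω))).relIndex A ≤ p ^ c) ∧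
        (c * Nat.log 2 (Nat.card T * p ^ c)) ^ 2 < Nat.card (unitGroup T p r u)) ∨
      -- (E) `F` has no small modules
      (∃ (c r : ℕ) (u : Equiv.Perm Ω), r.Prime ∧ r ≠ p ∧ u ∈ F ∧ u ^ r = 1 ∧
        (∀ M : Subgroup (Equiv.Perm Ω), M ≤ F → (∀ f ∈ F, ∀ m ∈ M, f * m * f⁻¹ ∈ M) →
          (∀ m ∈ M, ∀ a : Ω, m a = a → m = 1) → u ∉ M) ∧
        (∀ ω N A, NormalP F p ω N → A ≤ N → Elementary p A → Nat.card A ≤ p ^ c) ∧
        (c * Nat.log 2 (Nat.card F)) ^ 2 < Nat.card (unitGroup F p r u))) →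
    ∀ (V : Type) (Γ : SimpleGraph V), Γ.IsTree →
      (∀ v : V, Nonempty (Γ.neighborSet v ≃ Ω)) →
      ∃ S : Finset (Subgroup (Γ ≃g Γ)),
        ∀ H : Subgroup (Γ ≃g Γ),
          (∀ v : V, {g : Γ ≃g Γ | g ∈ H ∧ g v = v}.Finite) →
          (∀ x : V, ∃ e : Γ.neighborSet x ≃ Ω, ∀ σ : Equiv.Perm Ω,
              σ ∈ F ↔ ∃ g ∈ H, g x = x ∧
                ∀ y : Γ.neighborSet x,
                  g (y : V) = ((e.symm (σ (e y)) : Γ.neighborSet x) : V)) →
          -- `H` contains an involutive inversion, or is vertex-transitive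
          ((∃ g ∈ H, ∃ x y : V, Γ.Adj x y ∧ g x = y ∧ g y = x ∧ g * g = 1) ∨
            (∀ x y : V, ∃ g ∈ H, g x = y)) →
          (∃ K ∈ S, ∃ a : Γ ≃g Γ, H = K.map (MulAut.conj a).toMonoidHom) ∧
          ∀ v : V, Nat.card {g : Γ ≃g Γ // g ∈ H ∧ g v = v} ≤
            ((Fintype.card Ω + 1) ^ radius (Fintype.card Ω)).factorial := by
  intro Ω _ F hF hF3 V Γ hT hreg
  have hcj : ∀ (f : Equiv.Perm Ω) (T : Subgroup (Equiv.Perm Ω)),
      T.map (MulAut.conj f).toMonoidHom = Pool.Agent.Work.MP_6d7bb4.helper94.cj f T :=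
    fun f T => Pool.Agent.Work.MP_6d7bb4.h65u.X_KEQ.map_eq_cj f T
  -- components
  have hQ : ∀ 𝒩 : Set (Subgroup (Equiv.Perm Ω)), Components F 𝒩 →
      Pool.Agent.Work.MP_6d7bb4.h65u.Qhy F 𝒩 := by
    rintro 𝒩 ⟨h1, h2⟩
    refine ⟨fun T hT => (h1 T hT).1, fun T hT => (h1 T hT).2.1, fun T hT => (h1 T hT).2.2.1,
      ?_, ?_, ?_, ?_, h2⟩
    · intro T hT M hM hn
      refine (h1 T hT).2.2.2.1 M hM (fun t ht => ?_)
      refine le_antisymm ?_ ?_
      · rintro _ ⟨m, hm, rfl⟩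
        exact hn t ht m hm
      · intro m hm
        refine ⟨t⁻¹ * m * t, ?_, ?_⟩
        · have h3 := hn t⁻¹ (inv_mem ht) m hm
          rw [inv_inv] at h3
          exact h3
        · show t * (t⁻¹ * m * t) * t⁻¹ = m
          group
    · intro T hT f hf
      rw [← hcj]
      exact (((h1 T hT).2.2.2.2 _).1).mpr ⟨f, hf, rfl⟩
    · intro T hT T' hT'
      obtain ⟨f, hf, h3⟩ := (((h1 T hT).2.2.2.2 T').1).mp hT'
      exact ⟨f, hf, by rw [← hcj, h3]⟩
    · intro T hT T' hT' hne t ht t' ht'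
      exact (((h1 T hT).2.2.2.2 T').2 hT' (fun h => hne h.symm) t' ht' t ht).symm
  refine Pool.Agent.Work.MP_6d7bb4.h65u.maint (V := V) (Γ := Γ) hF.1 hF.2 (fun p hp => ?_) hT |>.imp
    (fun S hS H h1 h2 h3 => ?_)
  · rcases hF3 p hp with hA | ⟨S, h1, h2⟩ | ⟨𝒩, h1, h2⟩ | ⟨𝒩, h1, h2⟩ |
      ⟨c, r, u, hr, hrp, hu, hur, h1, h2, h3⟩
    · exact Or.inl (fun ω N a1 a2 a3 a4 => hA ω N ⟨a1, a2, a3, a4⟩)
    · exact Or.inr (Or.inl ⟨S, ⟨fun ω N a1 a2 a3 a4 => h2 ω N ⟨a1, a2, a3, a4⟩, h1⟩⟩)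
    · refine Or.inr (Or.inr (Or.inl ⟨𝒩, hQ 𝒩 h1, ?_⟩))
      intro ω N a1 a2 a3 a4 T hT g hg h hh b1 b2 b3 b4 b5
      refine h2 ω N ⟨a1, a2, a3, a4⟩ T hT g hg h hh ((hcj g T).trans b1) ((hcj h T).trans b2)
        (fun t ht => b3 t ht) (fun t ht => b4 t ht) ?_
      intro hc
      obtain ⟨t, ht, hne⟩ := b5
      exact hne (hc t ht)
    · refine Or.inr (Or.inr (Or.inr (Or.inl ⟨𝒩, hQ 𝒩 h1, ?_⟩)))
      intro T hT
      obtain ⟨c, r, u, hr, hrp, hu, hur, hnc, h3, h4⟩ := h2 T hT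
      refine ⟨c, r, u, hr, hrp, hu, hur, ?_, ?_, h4⟩
      · by_contra hcon
        exact hnc (fun t ht => by_contra fun hne => hcon ⟨t, ht, hne⟩)
      · intro ω N A a1 a2 a3 a4 a5 a6 a7 a8
        exact h3 ω N A ⟨a1, a2, a3, a4⟩ a5 ⟨a6, a7⟩ (fun a ha => (hcj a T).trans (a8 a ha))
    · refine Or.inr (Or.inr (Or.inr (Or.inr ⟨c, r, u, hr, hrp, hu, hur, h1, ?_, h3⟩)))
      intro ω N A a1 a2 a3 a4 a5 a6 a7
      exact h2 ω N A ⟨a1, a2, a3, a4⟩ a5 ⟨a6, a7⟩
  · have h4 := hS H h1 h2 h3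
    refine ⟨h4.1, fun v => (h4.2 v).trans (le_of_eq ?_)⟩
    unfold Pool.Agent.Work.MP_6d7bb4.h65u.bndu radius
    rw [Pool.Agent.Work.MP_6d7bb4.h65u.rT_eq, ← pow_mul]

end Pool.Agent.Results.MP_6d7bb4_al.PSVLocalConditions
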